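import Pool.Agent.H43.Niche.Enc

/-!
Soundness of the encoding: every coded original clause is satisfied by the assignment coming
from an arc relation `r` and a strict total order `s`.
-/

namespace Pool.Agent.H43.Niche

/-- The assignment: arcs, order, and auxiliary variables for the 13 edges. -/
def sig (r s : ℕ → ℕ → Prop) (i : ℕ) : Prop :=
  if i < 100 then r (i / 10) (i % 10)
  else if i < 200 then s ((i - 100) / 10) (i % 10)
  else if i % 2 = 0 then
    r (eU ((i - 200) / 20)) ((i - 200) % 20 / 2) ∧ r (eW ((i - 200) / 20)) ((i - 200) % 20 / 2)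
  else
    r ((i - 200) % 20 / 2) (eU ((i - 200) / 20)) ∧ r ((i - 200) % 20 / 2) (eW ((i - 200) / 20))

variable {r s : ℕ → ℕ → Prop}

theorem sig_arc {u v : ℕ} (hu : u < 10) (hv : v < 10) : sig r s (10 * u + v) ↔ r u v := by
  unfold sig
  have h1 : 10 * u + v < 100 := by omega
  have h2 : (10 * u + v) / 10 = u := by omega
  have h3 : (10 * u + v) % 10 = v := by omega
  rw [if_pos h1, h2, h3]

theorem sig_ord {u v : ℕ} (hu : u < 10) (hv : v < 10) : sig r s (100 + 10 * u + v) ↔ s u v := by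
  unfold sig
  have h1 : ¬ (100 + 10 * u + v < 100) := by omega
  have h1' : 100 + 10 * u + v < 200 := by omega
  have h2 : (100 + 10 * u + v - 100) / 10 = u := by omega
  have h3 : (100 + 10 * u + v) % 10 = v := by omega
  rw [if_neg h1, if_pos h1', h2, h3]

theorem sig_aux0 {e a : ℕ} (ha : a < 10) :
    sig r s (200 + 20 * e + 2 * a) ↔ r (eU e) a ∧ r (eW e) a := by
  unfold sig
  have h1 : ¬ (200 + 20 * e + 2 * a < 100) := by omega
  have h1' : ¬ (200 + 20 * e + 2 * a < 200) := by omega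
  have h2 : (200 + 20 * e + 2 * a) % 2 = 0 := by omega
  have h3 : (200 + 20 * e + 2 * a - 200) / 20 = e := by omega
  have h4 : (200 + 20 * e + 2 * a - 200) % 20 / 2 = a := by omega
  rw [if_neg h1, if_neg h1', if_pos h2, h3, h4]

theorem sig_aux1 {e a : ℕ} (ha : a < 10) :
    sig r s (200 + 20 * e + 2 * a + 1) ↔ r a (eU e) ∧ r a (eW e) := by
  unfold sig
  have h1 : ¬ (200 + 20 * e + 2 * a + 1 < 100) := by omega
  have h1' : ¬ (200 + 20 * e + 2 * a + 1 < 200) := by omega
  have h2 : ¬ ((200 + 20 * e + 2 * a + 1) % 2 = 0) := by omega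
  have h3 : (200 + 20 * e + 2 * a + 1 - 200) / 20 = e := by omega
  have h4 : (200 + 20 * e + 2 * a + 1 - 200) % 20 / 2 = a := by omega
  rw [if_neg h1, if_neg h1', if_neg h2, h3, h4]

theorem sat_triv (σ : ℕ → Prop) : Sat σ (1, 1) := by
  by_cases h : σ 0
  · exact ⟨0, Or.inl ⟨by decide, h⟩⟩
  · exact ⟨0, Or.inr ⟨by decide, h⟩⟩

theorem sat_imp {σ : ℕ → Prop} {x y : ℕ} (h : σ y → σ x) : Sat σ (2 ^ x, 2 ^ y) := by
  by_cases hy : σ y
  · exact ⟨x, Or.inl ⟨by simp, h hy⟩⟩
  · exact ⟨y, Or.inr ⟨by simp, hy⟩⟩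

theorem sat_nand {σ : ℕ → Prop} {x y : ℕ} (h : σ x → ¬ σ y) :
    Sat σ (0, Nat.lor (2 ^ x) (2 ^ y)) := by
  by_cases hx : σ x
  · refine ⟨y, Or.inr ⟨?_, h hx⟩⟩
    show ((2 ^ x) ||| (2 ^ y) : ℕ).testBit y = true
    simp [Nat.testBit_or]
  · refine ⟨x, Or.inr ⟨?_, hx⟩⟩
    show ((2 ^ x) ||| (2 ^ y) : ℕ).testBit x = true
    simp [Nat.testBit_or]

theorem sat_imp2 {σ : ℕ → Prop} {x y z : ℕ} (h : σ y → σ z → σ x) :
    Sat σ (2 ^ x, Nat.lor (2 ^ y) (2 ^ z)) := by
  by_cases hy : σ y
  · by_cases hz : σ z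
    · exact ⟨x, Or.inl ⟨by simp, h hy hz⟩⟩
    · refine ⟨z, Or.inr ⟨?_, hz⟩⟩
      show ((2 ^ y) ||| (2 ^ z) : ℕ).testBit z = true
      simp [Nat.testBit_or]
  · refine ⟨y, Or.inr ⟨?_, hy⟩⟩
    show ((2 ^ y) ||| (2 ^ z) : ℕ).testBit y = true
    simp [Nat.testBit_or]

theorem sat_impor {σ : ℕ → Prop} {x y z : ℕ} (h : σ z → σ x ∨ σ y) :
    Sat σ (Nat.lor (2 ^ x) (2 ^ y), 2 ^ z) := by
  by_cases hz : σ z
  · rcases h hz with h' | h'
    · refine ⟨x, Or.inl ⟨?_, h'⟩⟩
      show ((2 ^ x) ||| (2 ^ y) : ℕ).testBit x = true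
      simp [Nat.testBit_or]
    · refine ⟨y, Or.inl ⟨?_, h'⟩⟩
      show ((2 ^ x) ||| (2 ^ y) : ℕ).testBit y = true
      simp [Nat.testBit_or]
  · exact ⟨z, Or.inr ⟨by simp, hz⟩⟩

/-- The hypotheses on the arc relation `r` and the strict total order `s`. -/
structure Hyp (r s : ℕ → ℕ → Prop) : Prop where
  arc_ord : ∀ u v, u < 10 → v < 10 → r u v → s u v
  tot : ∀ u v, u < 10 → v < 10 → u ≠ v → (s u v ↔ ¬ s v u)
  trans : ∀ u v w, s u v → s v w → s u w
  out : ∀ u w a, u < w → w < 10 → a < 10 → adjF u w = false → ¬ (r u a ∧ r w a)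
  inn : ∀ u w a, u < w → w < 10 → a < 10 → adjF u w = false → ¬ (r a u ∧ r a w)
  edge : ∀ e, e < 13 → ∃ a, a < 10 ∧ a ≠ eU e ∧ a ≠ eW e ∧
    ((r (eU e) a ∧ r (eW e) a) ∨ (r a (eU e) ∧ r a (eW e)))
  z : s 8 9

theorem eU_lt (e : ℕ) : eU e < 10 := by
  unfold eU
  by_cases h : e < 13
  · interval_cases e <;> decide
  · rw [List.getD_eq_default]
    · decide
    · simp; omega

theorem eW_lt (e : ℕ) : eW e < 10 := by
  unfold eW
  by_cases h : e < 13
  · interval_cases e <;> decide
  · rw [List.getD_eq_default]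
    · decide
    · simp; omega

theorem tagClause_sat (H : Hyp r s) (kind u v w : ℕ) : Sat (sig r s) (tagClause kind u v w) := by
  unfold tagClause
  by_cases hb : (Nat.ble 10 u || (Nat.ble 10 v || Nat.ble 10 w)) = true
  · rw [hb]; exact sat_triv _
  have hb' := Bool.eq_false_iff.mpr hb
  rw [hb', cond_false]
  simp only [Bool.or_eq_true, Nat.ble_eq, not_or, not_le] at hb
  obtain ⟨hu, hv, hw⟩ := hb
  split
  · -- kind 0
    by_cases huv : Nat.beq u v = true
    · rw [huv]; exact sat_triv _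
    · rw [Bool.eq_false_iff.mpr huv, cond_false]
      have hne : u ≠ v := fun h => huv (by rw [h]; exact Nat.beq_refl v)
      by_cases hle : Nat.ble u v = true
      · rw [hle, cond_true]
        apply sat_imp
        rw [sig_arc hu hv, sig_ord hu hv]
        exact H.arc_ord u v hu hv
      · rw [Bool.eq_false_iff.mpr hle, cond_false]
        apply sat_nand
        rw [sig_arc hu hv, sig_ord hv hu]
        intro h
        exact (H.tot u v hu hv hne).mp (H.arc_ord u v hu hv h)
  · -- kind 1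
    by_cases hg : (Nat.ble v u || (Nat.ble w u || Nat.beq v w)) = true
    · rw [hg]; exact sat_triv _
    · rw [Bool.eq_false_iff.mpr hg, cond_false]
      simp only [Bool.or_eq_true, Nat.ble_eq, not_or, not_le] at hg
      obtain ⟨h1, h2, h3⟩ := hg
      have hne : v ≠ w := fun h => h3 (by rw [h]; exact Nat.beq_refl w)
      by_cases hle : Nat.ble v w = true
      · rw [hle, cond_true]
        apply sat_imp2
        rw [sig_ord hu hv, sig_ord hv hw, sig_ord hu hw]
        exact H.trans u v w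
      · rw [Bool.eq_false_iff.mpr hle, cond_false]
        apply sat_impor
        rw [sig_ord hu hv, sig_ord hw hv, sig_ord hu hw]
        intro h
        by_cases hvw : s w v
        · exact Or.inr hvw
        · exact Or.inl (H.trans u v w h ((H.tot v w hv hw hne).mpr hvw))
  · -- kind 2
    by_cases hg : (Nat.ble v u || adjF u v) = true
    · rw [hg]; exact sat_triv _
    · rw [Bool.eq_false_iff.mpr hg, cond_false]
      simp only [Bool.or_eq_true, Nat.ble_eq, not_or, not_le] at hg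
      obtain ⟨h1, h2⟩ := hg
      apply sat_nand
      rw [sig_arc hu hw, sig_arc hv hw]
      intro ha hb
      exact H.out u v w h1 hv hw (Bool.eq_false_iff.mpr h2) ⟨ha, hb⟩
  · -- kind 3
    by_cases hg : (Nat.ble v u || adjF u v) = true
    · rw [hg]; exact sat_triv _
    · rw [Bool.eq_false_iff.mpr hg, cond_false]
      simp only [Bool.or_eq_true, Nat.ble_eq, not_or, not_le] at hg
      obtain ⟨h1, h2⟩ := hg
      apply sat_nand
      rw [sig_arc hw hu, sig_arc hw hv]
      intro ha hb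
      exact H.inn u v w h1 hv hw (Bool.eq_false_iff.mpr h2) ⟨ha, hb⟩
  · -- kind 9
    refine ⟨189, Or.inl ⟨Nat.testBit_two_pow_self, ?_⟩⟩
    exact (sig_ord (r := r) (s := s) (u := 8) (v := 9) (by norm_num) (by norm_num)).mpr H.z
  · exact sat_triv _

theorem tagEdge_sat (H : Hyp r s) (kind e a : ℕ) : Sat (sig r s) (tagEdge kind e a) := by
  unfold tagEdge
  by_cases hb : (Nat.ble 13 e || Nat.ble 10 a) = true
  · rw [hb]; exact sat_triv _
  rw [Bool.eq_false_iff.mpr hb, cond_false]
  simp only [Bool.or_eq_true, Nat.ble_eq, not_or, not_le] at hb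
  obtain ⟨he, ha⟩ := hb
  split
  · apply sat_imp
    rw [sig_arc (eU_lt e) ha, sig_aux0 ha]
    exact And.left
  · apply sat_imp
    rw [sig_arc (eW_lt e) ha, sig_aux0 ha]
    exact And.right
  · apply sat_imp
    rw [sig_arc ha (eU_lt e), sig_aux1 ha]
    exact And.left
  · apply sat_imp
    rw [sig_arc ha (eW_lt e), sig_aux1 ha]
    exact And.right
  · obtain ⟨b, hb, hbU, hbW, h⟩ := H.edge e he
    have key : ∀ t, t < 20 → t / 2 ≠ eU e → t / 2 ≠ eW e →
        (Nat.xor (Nat.shiftLeft 1048575 (200 + 20 * e))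
          (Nat.lor (Nat.shiftLeft 3 (200 + 20 * e + 2 * eU e))
            (Nat.shiftLeft 3 (200 + 20 * e + 2 * eW e)))).testBit (200 + 20 * e + t) = true := by
      intro t ht h1 h2
      show ((1048575 <<< (200 + 20 * e)) ^^^
          ((3 <<< (200 + 20 * e + 2 * eU e)) ||| (3 <<< (200 + 20 * e + 2 * eW e))) : ℕ).testBit
            (200 + 20 * e + t) = true
      have e1 : (1048575 <<< (200 + 20 * e) : ℕ).testBit (200 + 20 * e + t) = true := by
        rw [Nat.testBit_shiftLeft]
        have : 200 + 20 * e + t - (200 + 20 * e) = t := by omega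
        rw [this]
        have h20 : (1048575 : ℕ) = 2 ^ 20 - 1 := by norm_num
        rw [h20, Nat.testBit_two_pow_sub_one]
        simp [ht]
      have three : ∀ k j : ℕ, (3 <<< k : ℕ).testBit j = true → j = k ∨ j = k + 1 := by
        intro k j hj
        rw [Nat.testBit_shiftLeft] at hj
        have h3 : (3 : ℕ) = 2 ^ 2 - 1 := by norm_num
        rw [h3, Nat.testBit_two_pow_sub_one] at hj
        simp at hj
        omega
      have e2 : (3 <<< (200 + 20 * e + 2 * eU e) : ℕ).testBit (200 + 20 * e + t) = false := by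
        by_contra hcon
        have := three _ _ (Bool.not_eq_false _ ▸ hcon)
        omega
      have e3 : (3 <<< (200 + 20 * e + 2 * eW e) : ℕ).testBit (200 + 20 * e + t) = false := by
        by_contra hcon
        have := three _ _ (Bool.not_eq_false _ ▸ hcon)
        omega
      rw [Nat.testBit_xor, Nat.testBit_or, e1, e2, e3]
      rfl
    rcases h with h | h
    · refine ⟨200 + 20 * e + 2 * b, Or.inl ⟨key (2 * b) (by omega) (by omega) (by omega), ?_⟩⟩
      exact (sig_aux0 hb).mpr h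
    · refine ⟨200 + 20 * e + 2 * b + 1, Or.inl ⟨key (2 * b + 1) (by omega) (by omega) (by omega), ?_⟩⟩
      exact (sig_aux1 hb).mpr h
  · exact sat_triv _

theorem tag_sat (H : Hyp r s) (n : ℕ) : Sat (sig r s) (tag n) := by
  unfold tag
  by_cases h : (Nat.ble 4 (n / 4096) && Nat.ble (n / 4096) 8) = true
  · rw [h]; exact tagEdge_sat H _ _ _
  · rw [Bool.eq_false_iff.mpr h]; exact tagClause_sat H _ _ _ _

end Pool.Agent.H43.Niche
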