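import Pool.Agent.H43.Niche.Hints
import Pool.Agent.H43.Niche.EncSound

/-! Kernel evaluation of the certificate. -/

namespace Pool.Agent.H43.Niche

theorem orig_ok : checkOrig tree tags 1 = true := by decide +kernel

theorem tags_len : tags.length = 1272 := by decide +kernel

theorem c0_ok : checkAll tree h0 1273 = true := by decide +kernel
theorem c0_len : h0.length = 110 := by decide +kernel

theorem c1_ok : checkAll tree h1 1383 = true := by decide +kernel
theorem c1_len : h1.length = 110 := by decide +kernel

theorem c2_ok : checkAll tree h2 1493 = true := by decide +kernel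
theorem c2_len : h2.length = 110 := by decide +kernel

theorem c3_ok : checkAll tree h3 1603 = true := by decide +kernel
theorem c3_len : h3.length = 110 := by decide +kernel

theorem c4_ok : checkAll tree h4 1713 = true := by decide +kernel
theorem c4_len : h4.length = 110 := by decide +kernel

theorem c5_ok : checkAll tree h5 1823 = true := by decide +kernel
theorem c5_len : h5.length = 110 := by decide +kernel

theorem c6_ok : checkAll tree h6 1933 = true := by decide +kernel
theorem c6_len : h6.length = 110 := by decide +kernel

theorem c7_ok : checkAll tree h7 2043 = true := by decide +kernel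
theorem c7_len : h7.length = 110 := by decide +kernel

theorem c8_ok : checkAll tree h8 2153 = true := by decide +kernel
theorem c8_len : h8.length = 110 := by decide +kernel

theorem c9_ok : checkAll tree h9 2263 = true := by decide +kernel
theorem c9_len : h9.length = 110 := by decide +kernel

theorem c10_ok : checkAll tree h10 2373 = true := by decide +kernel
theorem c10_len : h10.length = 110 := by decide +kernel

theorem c11_ok : checkAll tree h11 2483 = true := by decide +kernel
theorem c11_len : h11.length = 101 := by decide +kernel

theorem get_last : get tree 2583 = (0, 0) := by decide +kernel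

theorem unsat (σ : ℕ → Prop) (hσ : ∀ n, Sat σ (tag n)) : False := by
  have b0 : ∀ j < 1273, Sat σ (get tree j) := by
    have h1 : ∀ j, 1 ≤ j → j < 1 + tags.length → Sat σ (get tree j) :=
      checkOrig_sound σ hσ tree tags 1 orig_ok
    rw [tags_len] at h1
    intro j hj
    rcases Nat.eq_zero_or_pos j with h0 | h0
    · rw [h0, get_zero]; exact h1 1 (le_refl 1) (by norm_num)
    · exact h1 j h0 (by omega)
  have b1 : ∀ j < 1383, Sat σ (get tree j) := by
    have := checkAll_sound σ tree h0 1273 c0_ok b0
    rw [c0_len] at this
    exact this
  have b2 : ∀ j < 1493, Sat σ (get tree j) := by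
    have := checkAll_sound σ tree h1 1383 c1_ok b1
    rw [c1_len] at this
    exact this
  have b3 : ∀ j < 1603, Sat σ (get tree j) := by
    have := checkAll_sound σ tree h2 1493 c2_ok b2
    rw [c2_len] at this
    exact this
  have b4 : ∀ j < 1713, Sat σ (get tree j) := by
    have := checkAll_sound σ tree h3 1603 c3_ok b3
    rw [c3_len] at this
    exact this
  have b5 : ∀ j < 1823, Sat σ (get tree j) := by
    have := checkAll_sound σ tree h4 1713 c4_ok b4
    rw [c4_len] at this
    exact this
  have b6 : ∀ j < 1933, Sat σ (get tree j) := by
    have := checkAll_sound σ tree h5 1823 c5_ok b5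
    rw [c5_len] at this
    exact this
  have b7 : ∀ j < 2043, Sat σ (get tree j) := by
    have := checkAll_sound σ tree h6 1933 c6_ok b6
    rw [c6_len] at this
    exact this
  have b8 : ∀ j < 2153, Sat σ (get tree j) := by
    have := checkAll_sound σ tree h7 2043 c7_ok b7
    rw [c7_len] at this
    exact this
  have b9 : ∀ j < 2263, Sat σ (get tree j) := by
    have := checkAll_sound σ tree h8 2153 c8_ok b8
    rw [c8_len] at this
    exact this
  have b10 : ∀ j < 2373, Sat σ (get tree j) := by
    have := checkAll_sound σ tree h9 2263 c9_ok b9
    rw [c9_len] at this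
    exact this
  have b11 : ∀ j < 2483, Sat σ (get tree j) := by
    have := checkAll_sound σ tree h10 2373 c10_ok b10
    rw [c10_len] at this
    exact this
  have b12 : ∀ j < 2584, Sat σ (get tree j) := by
    have := checkAll_sound σ tree h11 2483 c11_ok b11
    rw [c11_len] at this
    exact this
  have hl := b12 2583 (by norm_num)
  rw [get_last] at hl
  obtain ⟨i, hi⟩ := hl
  simp at hi

end Pool.Agent.H43.Niche
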