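import Pool.Agent.H43.Niche.Rup

/-!
Encoding of the niche graph problem for the 8 vertex graph `G` plus two isolated vertices.
Vertices are `0, ..., 9`; the graph `G` lives on `0, ..., 7`.
-/

namespace Pool.Agent.H43.Niche

/-- First endpoints of the 13 edges. -/
def eU (e : ℕ) : ℕ := [0, 1, 0, 1, 1, 0, 4, 1, 3, 5, 0, 2, 4].getD e 0
/-- Second endpoints of the 13 edges. -/
def eW (e : ℕ) : ℕ := [2, 2, 3, 3, 4, 5, 5, 6, 6, 6, 7, 7, 7].getD e 0

/-- adjacency test as a Boolean function -/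
def adjB (u w : ℕ) : Bool :=
  (List.range 13).any fun e => (Nat.beq (eU e) u && Nat.beq (eW e) w) || (Nat.beq (eU e) w && Nat.beq (eW e) u)

/-- adjacency bit mask -/
def adjMask : ℕ := 72233584752160940
/-- fast adjacency test for `u < w` -/
def adjF (u w : ℕ) : Bool := Nat.beq (Nat.mod (Nat.shiftRight adjMask (10 * u + w)) 2) 1

/-- Decode a tag into one of the original clauses. -/
def tagClause (kind u v w : ℕ) : ℕ × ℕ :=
  cond (Nat.ble 10 u || (Nat.ble 10 v || Nat.ble 10 w)) (1, 1)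
  (match kind with
  | 0 => cond (Nat.beq u v) (1, 1)
      (cond (Nat.ble u v) (2 ^ (100 + 10 * u + v), 2 ^ (10 * u + v))
        (0, Nat.lor (2 ^ (10 * u + v)) (2 ^ (100 + 10 * v + u))))
  | 1 => cond (Nat.ble v u || (Nat.ble w u || Nat.beq v w)) (1, 1)
      (cond (Nat.ble v w)
        (2 ^ (100 + 10 * u + w), Nat.lor (2 ^ (100 + 10 * u + v)) (2 ^ (100 + 10 * v + w)))
        (Nat.lor (2 ^ (100 + 10 * u + w)) (2 ^ (100 + 10 * w + v)), 2 ^ (100 + 10 * u + v)))
  | 2 => cond (Nat.ble v u || adjF u v) (1, 1)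
      (0, Nat.lor (2 ^ (10 * u + w)) (2 ^ (10 * v + w)))
  | 3 => cond (Nat.ble v u || adjF u v) (1, 1)
      (0, Nat.lor (2 ^ (10 * w + u)) (2 ^ (10 * w + v)))
  | 9 => (2 ^ 189, 0)
  | _ => (1, 1))

/-- Decode a tag into one of the original clauses belonging to an edge. -/
def tagEdge (kind e a : ℕ) : ℕ × ℕ :=
  cond (Nat.ble 13 e || Nat.ble 10 a) (1, 1)
  (match kind with
  | 4 => (2 ^ (10 * eU e + a), 2 ^ (200 + 20 * e + 2 * a))
  | 5 => (2 ^ (10 * eW e + a), 2 ^ (200 + 20 * e + 2 * a))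
  | 6 => (2 ^ (10 * a + eU e), 2 ^ (200 + 20 * e + 2 * a + 1))
  | 7 => (2 ^ (10 * a + eW e), 2 ^ (200 + 20 * e + 2 * a + 1))
  | 8 => (Nat.xor (Nat.shiftLeft 1048575 (200 + 20 * e))
            (Nat.lor (Nat.shiftLeft 3 (200 + 20 * e + 2 * eU e)) (Nat.shiftLeft 3 (200 + 20 * e + 2 * eW e))), 0)
  | _ => (1, 1))

/-- The clause coded by a number. -/
def tag (n : ℕ) : ℕ × ℕ :=
  cond (Nat.ble 4 (n / 4096) && Nat.ble (n / 4096) 8) (tagEdge (n / 4096) (n / 256 % 16) (n / 16 % 16))
    (tagClause (n / 4096) (n / 256 % 16) (n / 16 % 16) (n % 16))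

/-- Check that the entries `i, i+1, ...` of the tree are the coded original clauses. -/
noncomputable def checkOrig (t : DB) (ts : List ℕ) : ℕ → Bool :=
  List.rec (motive := fun _ => ℕ → Bool) (fun _ => true)
    (fun n _ ih i =>
      cond (Nat.beq (get t i).1 (tag n).1 && Nat.beq (get t i).2 (tag n).2)
        (strict (Nat.succ i) ih) false) ts

theorem checkOrig_sound (σ : ℕ → Prop) (hσ : ∀ n, Sat σ (tag n)) (t : DB) :
    ∀ (ts : List ℕ) (i : ℕ), checkOrig t ts i = true →
      ∀ j, i ≤ j → j < i + ts.length → Sat σ (get t j) := by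
  intro ts
  induction ts with
  | nil => intro i _ j h1 h2; simp at h2; omega
  | cons n ts ih =>
    intro i h j h1 h2
    have hstep : checkOrig t (n :: ts) i =
        cond (Nat.beq (get t i).1 (tag n).1 && Nat.beq (get t i).2 (tag n).2)
          (checkOrig t ts (i + 1)) false := by
      unfold checkOrig
      simp only [strict_eq]
    rw [hstep] at h
    by_cases hc : (Nat.beq (get t i).1 (tag n).1 && Nat.beq (get t i).2 (tag n).2) = true
    · rw [hc] at h
      simp only [cond_true] at h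
      rw [Bool.and_eq_true] at hc
      have e1 := Nat.eq_of_beq_eq_true hc.1
      have e2 := Nat.eq_of_beq_eq_true hc.2
      rcases Nat.eq_or_lt_of_le h1 with h' | h'
      · rw [← h']
        have : get t i = tag n := Prod.ext e1 e2
        rw [this]; exact hσ n
      · exact ih (i + 1) h j h' (by simp at h2; omega)
    · rw [Bool.eq_false_iff.mpr hc] at h
      simp at h

end Pool.Agent.H43.Niche
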