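import Pool.Agent.H43.Niche.Cert

/-!
The graph `G` on 8 vertices with 13 edges has niche number 3.
-/

namespace Pool.Agent.H43.Niche

/-- symmetric adjacency test -/
def adjS (u w : ℕ) : Bool := adjF u w || adjF w u

/-- the transposition of 8 and 9 -/
def sw (u : ℕ) : ℕ := if u = 8 then 9 else if u = 9 then 8 else u

theorem sw_lt {u : ℕ} (h : u < 10) : sw u < 10 := by
  unfold sw; split_ifs <;> omega

theorem sw_sw (u : ℕ) : sw (sw u) = u := by
  unfold sw; split_ifs <;> omega

theorem sw_inj {u v : ℕ} (h : sw u = sw v) : u = v := by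
  rw [← sw_sw u, h, sw_sw]

theorem adjS_sw : ∀ u < 10, ∀ w < 10, adjS (sw u) (sw w) = adjS u w := by decide

/-- Conditions on an arc relation on `ℕ` (supported on `0, ..., 9`). -/
structure Good (r : ℕ → ℕ → Prop) : Prop where
  acyc : ∀ x, ¬ Relation.TransGen r x x
  left_lt : ∀ u v, r u v → u < 10
  right_lt : ∀ u v, r u v → v < 10
  out : ∀ u w a, u ≠ w → u < 10 → w < 10 → adjS u w = false → ¬ (r u a ∧ r w a)
  inn : ∀ u w a, u ≠ w → u < 10 → w < 10 → adjS u w = false → ¬ (r a u ∧ r a w)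
  edge : ∀ e, e < 13 → ∃ a, (r (eU e) a ∧ r (eW e) a) ∨ (r a (eU e) ∧ r a (eW e))

theorem Good.irrefl {r : ℕ → ℕ → Prop} (h : Good r) (x : ℕ) : ¬ r x x := fun hx =>
  h.acyc x (Relation.TransGen.single hx)

theorem eU_lt8 : ∀ e < 13, eU e < 8 := by decide
theorem eW_lt8 : ∀ e < 13, eW e < 8 := by decide

theorem good_hyp {r s : ℕ → ℕ → Prop} (h : Good r) (h1 : ∀ u v, r u v → s u v)
    (h2 : ∀ u v, u ≠ v → (s u v ↔ ¬ s v u)) (h3 : ∀ u v w, s u v → s v w → s u w)
    (h4 : s 8 9) : Hyp r s where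
  arc_ord := fun u v _ _ huv => h1 u v huv
  tot := fun u v _ _ huv => h2 u v huv
  trans := h3
  out := by
    intro u w a huw hw ha hf
    refine h.out u w a huw.ne (by omega) hw ?_
    have : ∀ u < 10, ∀ w < 10, u < w → adjF w u = false := by decide
    rw [adjS, hf, this u (by omega) w hw huw]
    rfl
  inn := by
    intro u w a huw hw ha hf
    refine h.inn u w a huw.ne (by omega) hw ?_
    have : ∀ u < 10, ∀ w < 10, u < w → adjF w u = false := by decide
    rw [adjS, hf, this u (by omega) w hw huw]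
    rfl
  edge := by
    intro e he
    obtain ⟨a, ha⟩ := h.edge e he
    refine ⟨a, ?_, ?_, ?_, ha⟩
    · rcases ha with ha | ha
      · exact h.right_lt _ _ ha.1
      · exact h.left_lt _ _ ha.1
    · rintro rfl
      rcases ha with ha | ha
      · exact h.irrefl _ ha.1
      · exact h.irrefl _ ha.1
    · rintro rfl
      rcases ha with ha | ha
      · exact h.irrefl _ ha.2
      · exact h.irrefl _ ha.2
  z := h4

theorem good_sw {r : ℕ → ℕ → Prop} (h : Good r) : Good (fun u v => r (sw u) (sw v)) where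
  acyc := by
    intro x hx
    have : ∀ x y, Relation.TransGen (fun u v => r (sw u) (sw v)) x y →
        Relation.TransGen r (sw x) (sw y) := by
      intro x y hxy
      induction hxy with
      | single h => exact Relation.TransGen.single h
      | tail _ h ih => exact Relation.TransGen.tail ih h
    exact h.acyc _ (this x x hx)
  left_lt := by
    intro u v huv
    have := sw_lt (h.left_lt _ _ huv)
    rwa [sw_sw] at this
  right_lt := by
    intro u v huv
    have := sw_lt (h.right_lt _ _ huv)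
    rwa [sw_sw] at this
  out := by
    intro u w a huw hu hw hf
    refine h.out _ _ _ (fun hh => huw (sw_inj hh)) (sw_lt hu) (sw_lt hw) ?_
    rw [adjS_sw u hu w hw]; exact hf
  inn := by
    intro u w a huw hu hw hf
    refine h.inn _ _ _ (fun hh => huw (sw_inj hh)) (sw_lt hu) (sw_lt hw) ?_
    rw [adjS_sw u hu w hw]; exact hf
  edge := by
    intro e he
    obtain ⟨a, ha⟩ := h.edge e he
    have e1 : sw (eU e) = eU e := by
      have := eU_lt8 e he
      unfold sw
      rw [if_neg (by omega), if_neg (by omega)]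
    have e2 : sw (eW e) = eW e := by
      have := eW_lt8 e he
      unfold sw
      rw [if_neg (by omega), if_neg (by omega)]
    refine ⟨sw a, ?_⟩
    simp only [e1, e2, sw_sw]
    exact ha

theorem not_good (r : ℕ → ℕ → Prop) : ¬ Good r := by
  intro h
  -- a linear extension of the reachability order
  have hpo : IsPartialOrder ℕ (Relation.ReflTransGen r) :=
    { refl := fun _ => Relation.ReflTransGen.refl
      trans := fun _ _ _ => Relation.ReflTransGen.trans
      antisymm := by
        intro a b hab hba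
        by_contra hne
        rcases Relation.reflTransGen_iff_eq_or_transGen.mp hab with h1 | h1
        · exact hne h1.symm
        · exact h.acyc a (Relation.TransGen.trans_left h1 hba) }
  obtain ⟨t, ht, hle⟩ := extend_partialOrder (Relation.ReflTransGen r)
  have hrefl : ∀ a, t a a := fun a => ht.refl a
  have htrans : ∀ a b c, t a b → t b c → t a c := fun a b c => ht.trans a b c
  have hanti : ∀ a b, t a b → t b a → a = b := fun a b => ht.antisymm a b
  have htot : ∀ a b, t a b ∨ t b a := fun a b => ht.total a b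
  have key : ∀ (r s : ℕ → ℕ → Prop), Good r → (∀ u v, r u v → s u v) →
      (∀ u v, u ≠ v → (s u v ↔ ¬ s v u)) → (∀ u v w, s u v → s v w → s u w) → s 8 9 → False := by
    intro r s hr h1 h2 h3 h4
    exact unsat (sig r s) (tag_sat (good_hyp hr h1 h2 h3 h4))
  have s2 : ∀ u v, u ≠ v → ((t u v ∧ u ≠ v) ↔ ¬ (t v u ∧ v ≠ u)) := by
    intro u v huv
    constructor
    · rintro ⟨h1, _⟩ ⟨h2, _⟩
      exact huv (hanti u v h1 h2)
    · intro h1
      refine ⟨?_, huv⟩
      rcases htot u v with h2 | h2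
      · exact h2
      · exact absurd ⟨h2, huv.symm⟩ h1
  have s3 : ∀ u v w, (t u v ∧ u ≠ v) → (t v w ∧ v ≠ w) → (t u w ∧ u ≠ w) := by
    intro u v w h1 h2
    refine ⟨htrans u v w h1.1 h2.1, ?_⟩
    rintro rfl
    exact h1.2 (hanti u v h1.1 h2.1)
  have s1 : ∀ u v, r u v → (t u v ∧ u ≠ v) := by
    intro u v huv
    refine ⟨hle u v (Relation.ReflTransGen.single huv), ?_⟩
    rintro rfl
    exact h.irrefl _ huv
  by_cases h89 : t 8 9
  · exact key r (fun u v => t u v ∧ u ≠ v) h s1 s2 s3 ⟨h89, by norm_num⟩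
  · have h98 : t 9 8 := (htot 8 9).resolve_left h89
    refine key (fun u v => r (sw u) (sw v)) (fun u v => t (sw u) (sw v) ∧ sw u ≠ sw v) (good_sw h)
      (fun u v huv => s1 _ _ huv) ?_ (fun u v w => s3 _ _ _) ⟨h98, by decide⟩
    intro u v huv
    exact s2 _ _ (fun hh => huv (sw_inj hh))

/-- The graph: 13 edges on 8 vertices. -/
def G : SimpleGraph (Fin 8) where
  Adj a b := adjS a b = true
  symm := ⟨by
    intro a b h
    rw [adjS, Bool.or_comm] at h
    exact h⟩
  loopless := ⟨by
    intro a h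
    have : ∀ a : Fin 8, adjS a a = false := by decide
    rw [this a] at h
    exact absurd h (by decide)⟩

/-- positions of the vertices -/
def emb (k : ℕ) : Fin 8 ⊕ Fin k → ℕ := Sum.elim (fun i => i.val) (fun j => 8 + j.val)

theorem emb_inj (k : ℕ) : Function.Injective (emb k) := by
  rintro (x | x) (y | y) h
  · exact congrArg Sum.inl (Fin.ext h)
  · have h' : x.val = 8 + y.val := h
    have := x.isLt
    omega
  · have h' : 8 + x.val = y.val := h
    have := y.isLt
    omega
  · have h' : 8 + x.val = 8 + y.val := h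
    exact congrArg Sum.inr (Fin.ext (by omega))

theorem emb_lt {k : ℕ} (hk : k ≤ 2) (x : Fin 8 ⊕ Fin k) : emb k x < 10 := by
  rcases x with x | x
  · show x.val < 10
    have := x.isLt
    omega
  · show 8 + x.val < 10
    have := x.isLt
    omega

theorem no_small (k : ℕ) (hk : k ≤ 2) : ¬ ∃ D : Digraph (Fin 8 ⊕ Fin k),
        (∀ x, ¬ Relation.TransGen D.Adj x x) ∧
        ∀ x y : Fin 8 ⊕ Fin k, x ≠ y →
          ((∃ z, (D.Adj x z ∧ D.Adj y z) ∨ (D.Adj z x ∧ D.Adj z y)) ↔
            ∃ a b : Fin 8, x = Sum.inl a ∧ y = Sum.inl b ∧ G.Adj a b) := by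
  rintro ⟨D, hac, hn⟩
  set r : ℕ → ℕ → Prop := fun m n => ∃ x y, emb k x = m ∧ emb k y = n ∧ D.Adj x y with hr
  have adj_of : ∀ x y : Fin 8 ⊕ Fin k, (∃ a b : Fin 8, x = Sum.inl a ∧ y = Sum.inl b ∧ G.Adj a b) →
      adjS (emb k x) (emb k y) = true := by
    rintro x y ⟨a, b, rfl, rfl, hab⟩
    exact hab
  refine not_good r
    { acyc := ?_
      left_lt := ?_
      right_lt := ?_
      out := ?_
      inn := ?_
      edge := ?_ }
  · intro m hm
    have key : ∀ m n, Relation.TransGen r m n →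
        ∃ x y, emb k x = m ∧ emb k y = n ∧ Relation.TransGen D.Adj x y := by
      intro m n hmn
      induction hmn with
      | single h =>
        obtain ⟨x, y, hx, hy, hxy⟩ := h
        exact ⟨x, y, hx, hy, Relation.TransGen.single hxy⟩
      | tail _ h ih =>
        obtain ⟨x, y, hx, hy, hxy⟩ := ih
        obtain ⟨y', z, hy', hz, hyz⟩ := h
        have : y = y' := emb_inj k (hy.trans hy'.symm)
        subst this
        exact ⟨x, z, hx, hz, Relation.TransGen.tail hxy hyz⟩
    obtain ⟨x, y, hx, hy, hxy⟩ := key m m hm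
    have : x = y := emb_inj k (hx.trans hy.symm)
    subst this
    exact hac x hxy
  · rintro u v ⟨x, y, rfl, rfl, _⟩
    exact emb_lt hk x
  · rintro u v ⟨x, y, rfl, rfl, _⟩
    exact emb_lt hk y
  · rintro u w a huw hu hw hf ⟨⟨x, z, rfl, rfl, hxz⟩, ⟨y, z', rfl, hz', hyz⟩⟩
    have : z' = z := emb_inj k hz'
    subst this
    have hne : x ≠ y := fun h => huw (by rw [h])
    have := adj_of x y ((hn x y hne).mp ⟨_, Or.inl ⟨hxz, hyz⟩⟩)
    rw [hf] at this
    exact absurd this (by decide)
  · rintro u w a huw hu hw hf ⟨⟨z, x, rfl, rfl, hzx⟩, ⟨z', y, hz', rfl, hzy⟩⟩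
    have : z' = z := emb_inj k hz'
    subst this
    have hne : x ≠ y := fun h => huw (by rw [h])
    have := adj_of x y ((hn x y hne).mp ⟨_, Or.inr ⟨hzx, hzy⟩⟩)
    rw [hf] at this
    exact absurd this (by decide)
  · intro e he
    have hU := eU_lt8 e he
    have hW := eW_lt8 e he
    have hadj : ∀ e < 13, adjS (eU e) (eW e) = true := by decide
    have hne : ∀ e < 13, eU e ≠ eW e := by decide
    have h1 := (hn (Sum.inl ⟨eU e, hU⟩) (Sum.inl ⟨eW e, hW⟩) (by
      intro h
      have := Sum.inl_injective h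
      exact hne e he (by simpa using this))).mpr ⟨_, _, rfl, rfl, hadj e he⟩
    obtain ⟨z, hz⟩ := h1
    refine ⟨emb k z, ?_⟩
    rcases hz with hz | hz
    · exact Or.inl ⟨⟨_, _, rfl, rfl, hz.1⟩, ⟨_, _, rfl, rfl, hz.2⟩⟩
    · exact Or.inr ⟨⟨_, _, rfl, rfl, hz.1⟩, ⟨_, _, rfl, rfl, hz.2⟩⟩

/-- The 15 arcs of an acyclic digraph whose niche graph is `G` plus three isolated vertices
(numbered `8, 9, 10`). -/
def arcs3 : List (ℕ × ℕ) :=
  [(0, 1), (0, 4), (1, 10), (2, 1), (3, 10), (4, 7), (5, 4), (5, 7), (6, 10), (7, 1), (7, 2),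
    (8, 5), (8, 6), (9, 0), (9, 3)]

/-- The digraph with these arcs. -/
def D3 : Digraph (Fin 8 ⊕ Fin 3) where
  Adj x y := (emb 3 x, emb 3 y) ∈ arcs3

/-- A rank function which increases along the arcs. -/
def rank3 (m : ℕ) : ℕ := [1, 5, 4, 1, 2, 1, 1, 3, 0, 0, 6].getD m 0

instance : DecidableRel D3.Adj := fun x y => inferInstanceAs (Decidable ((emb 3 x, emb 3 y) ∈ arcs3))

instance : DecidableRel G.Adj := fun a b => inferInstanceAs (Decidable (adjS a b = true))

theorem D3_rank : ∀ x y : Fin 8 ⊕ Fin 3, D3.Adj x y → rank3 (emb 3 x) < rank3 (emb 3 y) := by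
  decide +kernel

theorem D3_acyclic : ∀ x, ¬ Relation.TransGen D3.Adj x x := by
  have key : ∀ x y, Relation.TransGen D3.Adj x y → rank3 (emb 3 x) < rank3 (emb 3 y) := by
    intro x y hxy
    induction hxy with
    | single h => exact D3_rank _ _ h
    | tail _ h ih => exact lt_trans ih (D3_rank _ _ h)
  intro x hx
  exact lt_irrefl _ (key x x hx)

theorem D3_niche : ∀ x y : Fin 8 ⊕ Fin 3, x ≠ y →
    ((∃ z, (D3.Adj x z ∧ D3.Adj y z) ∨ (D3.Adj z x ∧ D3.Adj z y)) ↔
      ∃ a b : Fin 8, x = Sum.inl a ∧ y = Sum.inl b ∧ G.Adj a b) := by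
  decide +kernel

end Pool.Agent.H43.Niche
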