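import Mathlib

/-!
A small verified checker for clause refutations by reverse unit propagation.
Clauses are pairs of bit masks (positive literals, negative literals).
-/

namespace Pool.Agent.H43.Niche

/-- A clause given by two bit masks is satisfied by the assignment `σ`. -/
def Sat (σ : ℕ → Prop) (c : ℕ × ℕ) : Prop :=
  ∃ i, (c.1.testBit i = true ∧ σ i) ∨ (c.2.testBit i = true ∧ ¬ σ i)

/-- Binary trees of clauses, used as random access arrays. -/
inductive DB : Type
  | nil : DB
  | node (l : DB) (c : ℕ × ℕ) (r : DB) : DB

/-- Forces evaluation of a natural number before passing it on. -/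
def strict {α : Type} (x : ℕ) (f : ℕ → α) : α :=
  match x with
  | 0 => f 0
  | n + 1 => f (n + 1)

theorem strict_eq {α : Type} (x : ℕ) (f : ℕ → α) : strict x f = f x := by
  cases x <;> rfl

/-- Look up a clause. -/
noncomputable def get (t : DB) : ℕ → ℕ × ℕ :=
  DB.rec (motive := fun _ => ℕ → ℕ × ℕ) (fun _ => (1, 1))
    (fun _ c _ gl gr i =>
      cond (Nat.ble i 1) c
        (cond (Nat.beq (Nat.mod i 2) 0) (strict (Nat.div i 2) gl) (strict (Nat.div i 2) gr))) t

theorem get_zero (t : DB) : get t 0 = get t 1 := by
  cases t <;> rfl

/-- Unit propagation along the hints coded (base 4096) in `H`. -/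
noncomputable def run (t : DB) (bound : ℕ) (fuel : ℕ) : ℕ → ℕ → ℕ → Bool :=
  Nat.rec (motive := fun _ => ℕ → ℕ → ℕ → Bool) (fun _ _ _ => false)
    (fun _ ih H T F =>
      cond (Nat.beq H 0) false
        (strict (Nat.mod H 4096) fun h =>
          cond (Nat.ble bound h) false
            (match get t h with
            | (a, b) =>
              strict (Nat.xor a (Nat.land a F)) fun p =>
                strict (Nat.xor b (Nat.land b T)) fun q =>
                  cond (Nat.beq q 0)
                    (cond (Nat.beq p 0) true
                      (cond (Nat.beq (Nat.land p (Nat.sub p 1)) 0)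
                        (strict (Nat.lor T p) fun T' => strict (Nat.div H 4096) fun H' => ih H' T' F)
                        false))
                    (cond (Nat.beq p 0)
                      (cond (Nat.beq (Nat.land q (Nat.sub q 1)) 0)
                        (strict (Nat.lor F q) fun F' => strict (Nat.div H 4096) fun H' => ih H' T F')
                        false)
                      false)))) fuel

theorem run_succ (t : DB) (bound fuel H T F : ℕ) :
    run t bound (fuel + 1) H T F =
      cond (Nat.beq H 0) false
        (cond (Nat.ble bound (Nat.mod H 4096)) false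
            (cond (Nat.beq (Nat.xor (get t (Nat.mod H 4096)).2 (Nat.land (get t (Nat.mod H 4096)).2 T)) 0)
                    (cond (Nat.beq (Nat.xor (get t (Nat.mod H 4096)).1 (Nat.land (get t (Nat.mod H 4096)).1 F)) 0) true
                      (cond (Nat.beq (Nat.land (Nat.xor (get t (Nat.mod H 4096)).1 (Nat.land (get t (Nat.mod H 4096)).1 F))
                          (Nat.sub (Nat.xor (get t (Nat.mod H 4096)).1 (Nat.land (get t (Nat.mod H 4096)).1 F)) 1)) 0)
                        (run t bound fuel (Nat.div H 4096)
                          (Nat.lor T (Nat.xor (get t (Nat.mod H 4096)).1 (Nat.land (get t (Nat.mod H 4096)).1 F))) F)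
                        false))
                    (cond (Nat.beq (Nat.xor (get t (Nat.mod H 4096)).1 (Nat.land (get t (Nat.mod H 4096)).1 F)) 0)
                      (cond (Nat.beq (Nat.land (Nat.xor (get t (Nat.mod H 4096)).2 (Nat.land (get t (Nat.mod H 4096)).2 T))
                          (Nat.sub (Nat.xor (get t (Nat.mod H 4096)).2 (Nat.land (get t (Nat.mod H 4096)).2 T)) 1)) 0)
                        (run t bound fuel (Nat.div H 4096) T
                          (Nat.lor F (Nat.xor (get t (Nat.mod H 4096)).2 (Nat.land (get t (Nat.mod H 4096)).2 T))))
                        false)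
                      false))) := by
  unfold run
  simp only [strict_eq]

theorem run_sound (σ : ℕ → Prop) (t : DB) (bound : ℕ)
    (hb : ∀ j < bound, Sat σ (get t j)) :
    ∀ (fuel H T F : ℕ), run t bound fuel H T F = true →
      (∀ i, T.testBit i = true → σ i) → (∀ i, F.testBit i = true → ¬ σ i) → False := by
  intro fuel
  induction fuel with
  | zero => intro H T F h; exact absurd h (by simp [run])
  | succ n ih =>
    intro H T F h hT hF
    rw [run_succ] at h
    set c := get t (Nat.mod H 4096) with hc
    by_cases h0 : Nat.beq H 0 = true
    · simp [h0] at h
    by_cases h1 : Nat.ble bound (Nat.mod H 4096) = true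
    · simp [h0, h1] at h
    have hlt : Nat.mod H 4096 < bound := by
      by_contra hcon
      exact h1 (Nat.ble_eq.mpr (not_lt.mp hcon))
    have hsat := hb _ hlt
    rw [← hc] at hsat
    obtain ⟨i, hi⟩ := hsat
    have hp : ∀ i, c.1.testBit i = true → σ i →
        (Nat.xor c.1 (Nat.land c.1 F)).testBit i = true := by
      intro i hi hs
      have : F.testBit i = false := by
        by_contra hcon
        exact hF i (by simpa using hcon) hs
      show (c.1 ^^^ (c.1 &&& F)).testBit i = true
      simp [Nat.testBit_xor, Nat.testBit_and, hi, this]
    have hq : ∀ i, c.2.testBit i = true → ¬ σ i →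
        (Nat.xor c.2 (Nat.land c.2 T)).testBit i = true := by
      intro i hi hs
      have : T.testBit i = false := by
        by_contra hcon
        exact hs (hT i (by simpa using hcon))
      show (c.2 ^^^ (c.2 &&& T)).testBit i = true
      simp [Nat.testBit_xor, Nat.testBit_and, hi, this]
    set p := Nat.xor c.1 (Nat.land c.1 F) with hpdef
    set q := Nat.xor c.2 (Nat.land c.2 T) with hqdef
    have h0' : Nat.beq H 0 = false := Bool.eq_false_iff.mpr h0
    have h1' : Nat.ble bound (Nat.mod H 4096) = false := Bool.eq_false_iff.mpr h1
    rw [h0', h1'] at h
    simp only [cond_false] at h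
    by_cases hq0 : q = 0
    · have hq0' : Nat.beq q 0 = true := by rw [hq0]; rfl
      rw [hq0'] at h
      simp only [cond_true] at h
      by_cases hp0 : p = 0
      · rcases hi with ⟨ha, hb⟩ | ⟨ha, hb⟩
        · have := hp i ha hb
          rw [hp0] at this
          simp at this
        · have := hq i ha hb
          rw [hq0] at this
          simp at this
      · have hp0' : Nat.beq p 0 = false := by
          by_contra hcon
          exact hp0 (Nat.eq_of_beq_eq_true (by simpa using hcon))
        rw [hp0'] at h
        simp only [cond_false] at h
        by_cases hpp : Nat.beq (Nat.land p (Nat.sub p 1)) 0 = true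
        · rw [hpp] at h
          simp only [cond_true] at h
          obtain ⟨k, hpp'⟩ : ∃ k, p = 2 ^ k :=
            (Nat.and_sub_one_eq_zero_iff_isPowerOfTwo hp0).mp (Nat.eq_of_beq_eq_true hpp)
          refine ih _ _ _ h ?_ hF
          intro j hj
          have hj' : (T ||| p).testBit j = true := hj
          rw [Nat.testBit_or, Bool.or_eq_true] at hj'
          rcases hj' with hj' | hj'
          · exact hT j hj'
          · rcases hi with ⟨ha, hb⟩ | ⟨ha, hb⟩
            · have hpi := hp i ha hb
              rw [hpp', Nat.testBit_two_pow] at hpi hj'
              have e1 : k = i := by simpa using hpi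
              have e2 : k = j := by simpa using hj'
              rw [← e2, e1]; exact hb
            · have := hq i ha hb
              rw [hq0] at this
              simp at this
        · have : Nat.beq (Nat.land p (Nat.sub p 1)) 0 = false := Bool.eq_false_iff.mpr hpp
          rw [this] at h
          simp at h
    · have hq0' : Nat.beq q 0 = false := by
          by_contra hcon
          exact hq0 (Nat.eq_of_beq_eq_true (by simpa using hcon))
      rw [hq0'] at h
      simp only [cond_false] at h
      by_cases hp0 : p = 0
      · have hp0' : Nat.beq p 0 = true := by rw [hp0]; rfl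
        rw [hp0'] at h
        simp only [cond_true] at h
        by_cases hqq : Nat.beq (Nat.land q (Nat.sub q 1)) 0 = true
        · rw [hqq] at h
          simp only [cond_true] at h
          obtain ⟨k, hqq'⟩ : ∃ k, q = 2 ^ k :=
            (Nat.and_sub_one_eq_zero_iff_isPowerOfTwo hq0).mp (Nat.eq_of_beq_eq_true hqq)
          refine ih _ _ _ h hT ?_
          intro j hj
          have hj' : (F ||| q).testBit j = true := hj
          rw [Nat.testBit_or, Bool.or_eq_true] at hj'
          rcases hj' with hj' | hj'
          · exact hF j hj'
          · rcases hi with ⟨ha, hb⟩ | ⟨ha, hb⟩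
            · have := hp i ha hb
              rw [hp0] at this
              simp at this
            · have hqi := hq i ha hb
              rw [hqq', Nat.testBit_two_pow] at hqi hj'
              have e1 : k = i := by simpa using hqi
              have e2 : k = j := by simpa using hj'
              rw [← e2, e1]; exact hb
        · have : Nat.beq (Nat.land q (Nat.sub q 1)) 0 = false := Bool.eq_false_iff.mpr hqq
          rw [this] at h
          simp at h
      · have hp0' : Nat.beq p 0 = false := by
          by_contra hcon
          exact hp0 (Nat.eq_of_beq_eq_true (by simpa using hcon))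
        rw [hp0'] at h
        simp at h

/-- Check lemma `i, i+1, ...` of the tree against the coded hint lists. -/
noncomputable def checkAll (t : DB) (hs : List ℕ) : ℕ → Bool :=
  List.rec (motive := fun _ => ℕ → Bool) (fun _ => true)
    (fun H _ ih i =>
      cond (match get t i with
        | (a, b) => run t i 1000 H b a) (strict (Nat.succ i) ih) false) hs

theorem checkAll_sound (σ : ℕ → Prop) (t : DB) :
    ∀ (hs : List ℕ) (i : ℕ), checkAll t hs i = true → (∀ j < i, Sat σ (get t j)) →
      ∀ j < i + hs.length, Sat σ (get t j) := by
  intro hs
  induction hs with
  | nil => intro i _ hb j hj; exact hb j (by simpa using hj)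
  | cons H hs ih =>
    intro i h hb j hj
    have hstep : checkAll t (H :: hs) i =
        cond (run t i 1000 H (get t i).2 (get t i).1) (checkAll t hs (i + 1)) false := by
      conv_lhs => unfold checkAll
      simp only [strict_eq]
      rfl
    rw [hstep] at h
    by_cases hr : run t i 1000 H (get t i).2 (get t i).1 = true
    · rw [hr] at h
      simp only [cond_true] at h
      have hi : Sat σ (get t i) := by
        by_contra hcon
        have hT : ∀ k, (get t i).2.testBit k = true → σ k := by
          intro k hk
          by_contra hk'
          exact hcon ⟨k, Or.inr ⟨hk, hk'⟩⟩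
        have hF : ∀ k, (get t i).1.testBit k = true → ¬ σ k := by
          intro k hk hk'
          exact hcon ⟨k, Or.inl ⟨hk, hk'⟩⟩
        exact run_sound σ t i hb _ _ _ _ hr hT hF
      refine ih (i + 1) h ?_ j (by simp at hj; omega)
      intro j hj
      rcases Nat.lt_succ_iff_lt_or_eq.mp hj with h' | h'
      · exact hb j h'
      · rw [h']; exact hi
    · have : run t i 1000 H (get t i).2 (get t i).1 = false := Bool.eq_false_iff.mpr hr
      rw [this] at h
      simp at h

end Pool.Agent.H43.Niche
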